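import Mathlib

set_option autoImplicit false
set_option linter.unusedVariables false
set_option linter.unusedSectionVars false

open Finset

namespace Pool.Agent.Y940.Cov

section perm
variable {G : Type*} [Fintype G] [DecidableEq G]

theorem exists_perm (A B : Finset G) (h : A.card = B.card) :
    ∃ τ : Equiv.Perm G, A.map τ.toEmbedding = B := by
  classical
  let e : {x // x ∈ A} ≃ {x // x ∈ B} := Finset.equivOfCardEq h
  refine ⟨e.extendSubtype, ?_⟩
  apply Finset.eq_of_subset_of_card_le
  · intro x hx
    obtain ⟨a, ha, rfl⟩ := Finset.mem_map.mp hx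
    exact e.extendSubtype_mem a ha
  · rw [Finset.card_map, h]

theorem card_perm_map (k : ℕ) (A0 A : Finset G) (h0 : A0.card = k) (hA : A.card = k) :
    (Fintype.card G).choose k *
      ((univ : Finset (Equiv.Perm G)).filter (fun σ => A0.map σ.toEmbedding = A)).card =
      Fintype.card (Equiv.Perm G) := by
  classical
  have h1 := Finset.card_eq_sum_card_fiberwise (f := fun σ : Equiv.Perm G => A0.map σ.toEmbedding)
    (s := (univ : Finset (Equiv.Perm G))) (t := powersetCard k (univ : Finset G)) (by
      intro σ _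
      simp [Finset.mem_powersetCard, h0])
  rw [Finset.card_univ] at h1
  rw [h1]
  have h2 : ∀ B ∈ powersetCard k (univ : Finset G),
      ((univ : Finset (Equiv.Perm G)).filter (fun σ => A0.map σ.toEmbedding = B)).card =
      ((univ : Finset (Equiv.Perm G)).filter (fun σ => A0.map σ.toEmbedding = A)).card := by
    intro B hB
    obtain ⟨-, hBk⟩ := Finset.mem_powersetCard.mp hB
    obtain ⟨τ, hτ⟩ := exists_perm B A (by rw [hBk, hA])
    apply Finset.card_bij (fun (σ : Equiv.Perm G) _ => τ * σ)
    · intro σ hσ
      rw [mem_filter] at hσ ⊢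
      refine ⟨mem_univ _, ?_⟩
      rw [← hτ, ← hσ.2, Finset.map_map]
      congr 1
    · intro σ _ σ' _ h
      exact mul_left_cancel h
    · intro σ hσ
      refine ⟨τ⁻¹ * σ, ?_, by simp⟩
      rw [mem_filter] at hσ ⊢
      refine ⟨mem_univ _, ?_⟩
      have e1 : (A0.map (τ⁻¹ * σ).toEmbedding) = (A0.map σ.toEmbedding).map (τ⁻¹).toEmbedding := by
        rw [Finset.map_map]
        congr 1
      rw [e1, hσ.2, ← hτ, Finset.map_map]
      ext x
      simp
  rw [Finset.sum_congr rfl h2, Finset.sum_const, Finset.card_powersetCard, Finset.card_univ,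
    smul_eq_mul]

end perm

section proj
variable {G H : Type*} [Fintype G] [DecidableEq G] [Fintype H] [DecidableEq H]

/-- the action of a permutation of the first coordinate on subsets -/
def act (σ : Equiv.Perm G) (A' : Finset (G × H)) : Finset (G × H) :=
  A'.map (Equiv.prodCongr σ (Equiv.refl H)).toEmbedding

theorem act_card (σ : Equiv.Perm G) (A' : Finset (G × H)) : (act σ A').card = A'.card := by
  unfold act; rw [Finset.card_map]

theorem act_fst (σ : Equiv.Perm G) (A' : Finset (G × H)) :
    (act σ A').image Prod.fst = (A'.image Prod.fst).map σ.toEmbedding := by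
  unfold act
  ext x
  simp only [mem_image, mem_map, Prod.exists]
  constructor
  · rintro ⟨a, b, ⟨c, d, hcd, h⟩, rfl⟩
    refine ⟨c, ⟨c, d, hcd, rfl⟩, ?_⟩
    exact congrArg Prod.fst h
  · rintro ⟨y, ⟨a, b, hab, rfl⟩, rfl⟩
    exact ⟨σ a, b, ⟨a, b, hab, rfl⟩, rfl⟩

theorem act_injective (σ : Equiv.Perm G) :
    Function.Injective (act σ : Finset (G × H) → Finset (G × H)) := by
  intro A B h
  exact Finset.map_injective _ h

/-- Averaging over the permutations of `G`. -/
theorem avg_perm (k j : ℕ) (X : Finset (Finset G)) (hX : ∀ A ∈ X, A.card = k)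
    (Y Z : Finset (Finset (G × H)))
    (hY : ∀ A', A' ∈ Y ↔ A'.card = j ∧ k ≤ (A'.image Prod.fst).card)
    (hZ : ∀ A', A' ∈ Z ↔ A' ∈ Y ∧ ∃ A ∈ X, A ⊆ A'.image Prod.fst) :
    X.card * Y.card ≤ (Fintype.card G).choose k * Z.card := by
  classical
  -- the pairs
  set P := ((univ : Finset (Equiv.Perm G)) ×ˢ Y).filter (fun p => act p.1 p.2 ∈ Z) with hP
  have h1 : P.card ≤ Fintype.card (Equiv.Perm G) * Z.card := by
    have e1 := Finset.card_eq_sum_card_fiberwise (f := fun p : Equiv.Perm G × Finset (G × H) => p.1)
      (s := P) (t := (univ : Finset (Equiv.Perm G))) (fun p _ => mem_univ _)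
    rw [e1, ← Finset.card_univ, ← smul_eq_mul, ← Finset.sum_const]
    apply Finset.sum_le_sum
    intro σ _
    apply Finset.card_le_card_of_injOn (fun p => act p.1 p.2)
    · intro p hp
      exact (mem_filter.mp (mem_filter.mp (Finset.mem_coe.mp hp)).1).2
    · intro p hp q hq h
      have hp' := (mem_filter.mp (Finset.mem_coe.mp hp)).2
      have hq' := (mem_filter.mp (Finset.mem_coe.mp hq)).2
      have hp1 : p.1 = σ := hp'
      have hq1 : q.1 = σ := hq'
      have h' : act p.1 p.2 = act q.1 q.2 := h
      rw [hp1, hq1] at h'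
      exact Prod.ext (hp1.trans hq1.symm) (act_injective σ h')
  have h2 : X.card * Fintype.card (Equiv.Perm G) * Y.card ≤ (Fintype.card G).choose k * P.card := by
    have e1 := Finset.card_eq_sum_card_fiberwise (f := fun p : Equiv.Perm G × Finset (G × H) => p.2)
      (s := P) (t := Y) (by
        intro p hp
        exact (Finset.mem_product.mp (mem_filter.mp (Finset.mem_coe.mp hp)).1).2)
    rw [e1, Finset.mul_sum]
    rw [mul_comm (X.card * Fintype.card (Equiv.Perm G)) Y.card, ← smul_eq_mul Y.card,
      ← Finset.sum_const]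
    apply Finset.sum_le_sum
    intro A' hA'
    obtain ⟨hj, hk⟩ := (hY A').mp hA'
    obtain ⟨A0, hA0s, hA0k⟩ := Finset.exists_subset_card_eq hk
    have e2 : ∑ A ∈ X, ((univ : Finset (Equiv.Perm G)).filter
        (fun σ => A0.map σ.toEmbedding = A)).card ≤
        (P.filter (fun p => p.2 = A')).card := by
      have e3 := Finset.card_eq_sum_card_fiberwise
        (f := fun σ : Equiv.Perm G => A0.map σ.toEmbedding)
        (s := (univ : Finset (Equiv.Perm G)).filter (fun σ => A0.map σ.toEmbedding ∈ X))
        (t := X) (by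
          intro σ hσ
          exact (mem_filter.mp (Finset.mem_coe.mp hσ)).2)
      have e4 : ∑ A ∈ X, ((univ : Finset (Equiv.Perm G)).filter
          (fun σ => A0.map σ.toEmbedding = A)).card =
          ((univ : Finset (Equiv.Perm G)).filter (fun σ => A0.map σ.toEmbedding ∈ X)).card := by
        rw [e3]
        apply Finset.sum_congr rfl
        intro A hA
        congr 1
        ext σ
        simp only [mem_filter, mem_univ, true_and]
        constructor
        · intro h
          exact ⟨by rw [h]; exact hA, h⟩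
        · rintro ⟨-, h⟩
          exact h
      rw [e4]
      apply Finset.card_le_card_of_injOn (fun σ => (σ, A'))
      · intro σ hσ
        have hσ' := (mem_filter.mp (Finset.mem_coe.mp hσ)).2
        rw [Finset.mem_coe, mem_filter, hP, mem_filter]
        refine ⟨⟨Finset.mem_product.mpr ⟨mem_univ _, hA'⟩, ?_⟩, rfl⟩
        rw [hZ, hY, act_card, act_fst, Finset.card_map]
        refine ⟨⟨hj, hk⟩, _, hσ', ?_⟩
        exact Finset.map_subset_map.mpr hA0s
      · intro σ _ τ _ h
        exact congrArg Prod.fst h
    refine le_trans ?_ (Nat.mul_le_mul_left _ e2)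
    rw [Finset.mul_sum, ← smul_eq_mul, ← Finset.sum_const]
    apply Finset.sum_le_sum
    intro A hA
    exact (card_perm_map k A0 A hA0k (hX A hA)).ge
  have hpos : 0 < Fintype.card (Equiv.Perm G) := Fintype.card_pos
  have h3 : X.card * Y.card * Fintype.card (Equiv.Perm G) ≤
      (Fintype.card G).choose k * Z.card * Fintype.card (Equiv.Perm G) := by
    calc X.card * Y.card * Fintype.card (Equiv.Perm G) =
        X.card * Fintype.card (Equiv.Perm G) * Y.card := by ring
      _ ≤ (Fintype.card G).choose k * P.card := h2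
      _ ≤ (Fintype.card G).choose k * (Fintype.card (Equiv.Perm G) * Z.card) :=
          Nat.mul_le_mul_left _ h1
      _ = _ := by ring
  exact Nat.le_of_mul_le_mul_right h3 hpos

theorem choose_ratio (n j m : ℕ) (hn : 0 < n) (hm : m ≤ n) :
    ((n - m).choose j : ℝ) ≤ (1 - (m:ℝ) / n) ^ j * (n.choose j : ℝ) := by
  have hnr : (0:ℝ) < n := by exact_mod_cast hn
  have hmr : (m:ℝ) ≤ n := by exact_mod_cast hm
  have h1 : (0:ℝ) ≤ 1 - (m:ℝ) / n := by
    rw [sub_nonneg, div_le_one hnr]; exact hmr
  have key : ∀ i : ℕ, ((n - m).descFactorial i : ℝ) ≤ (1 - (m:ℝ) / n) ^ i * (n.descFactorial i : ℝ) := by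
    intro i
    induction i with
    | zero => simp
    | succ i ih =>
      rw [Nat.descFactorial_succ, Nat.descFactorial_succ, pow_succ]
      push_cast
      have h2 : ((n - m - i : ℕ) : ℝ) ≤ (1 - (m:ℝ) / n) * ((n - i : ℕ) : ℝ) := by
        rcases Nat.lt_or_ge (n - m) i with h | h
        · have : n - m - i = 0 := by omega
          rw [this]
          have : (0:ℝ) ≤ ((n - i : ℕ) : ℝ) := by positivity
          push_cast
          positivity
        · rw [Nat.cast_sub h, Nat.cast_sub hm, Nat.cast_sub (by omega : i ≤ n)]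
          have hi : (0:ℝ) ≤ i := by positivity
          have e : (1 - (m:ℝ) / n) * ((n:ℝ) - i) = n - m - i + m * i / n := by
            field_simp
            ring
          rw [e]
          have : 0 ≤ (m:ℝ) * i / n := by positivity
          linarith
      have h3 : (0:ℝ) ≤ ((n - m - i : ℕ) : ℝ) := by positivity
      calc ((n - m - i : ℕ) : ℝ) * ((n - m).descFactorial i : ℝ) ≤
          ((1 - (m:ℝ) / n) * ((n - i : ℕ) : ℝ)) * ((1 - (m:ℝ) / n) ^ i * (n.descFactorial i : ℝ)) := by
            apply mul_le_mul h2 ih (by positivity)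
            exact h3.trans h2
        _ = _ := by ring
  have h2 := key j
  rw [Nat.descFactorial_eq_factorial_mul_choose, Nat.descFactorial_eq_factorial_mul_choose] at h2
  push_cast at h2
  have hf : (0:ℝ) < j.factorial := by exact_mod_cast Nat.factorial_pos j
  have h3 : (j.factorial : ℝ) * ((n - m).choose j : ℝ) ≤
      (j.factorial : ℝ) * ((1 - (m:ℝ) / n) ^ j * (n.choose j : ℝ)) := by
    calc _ ≤ _ := h2
      _ = _ := by ring
  exact le_of_mul_le_mul_left h3 hf

/-- Most `j`-subsets of `G × H` project onto at least `k` elements (a Markov bound). -/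
theorem many_proj (k j : ℕ) (hkj : k ≤ j) (hH : 0 < Fintype.card H) (hG : 0 < Fintype.card G)
    (Y : Finset (Finset (G × H)))
    (hY : ∀ A', A' ∈ Y ↔ A'.card = j ∧ k ≤ (A'.image Prod.fst).card) :
    ((Fintype.card (G × H)).choose j : ℝ) * (((Fintype.card G : ℝ) - k) -
      Fintype.card G * Real.exp (-((j:ℝ) / Fintype.card G))) ≤ ((j:ℝ) - k) * Y.card := by
  classical
  set N := Fintype.card G with hN
  set m := Fintype.card H with hm
  set N' := Fintype.card (G × H) with hN'
  have hNm : N' = N * m := by rw [hN', Fintype.card_prod]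
  have hN'pos : 0 < N' := by rw [hNm]; exact Nat.mul_pos hG hH
  set S := powersetCard j (univ : Finset (G × H)) with hS
  have hScard : S.card = N'.choose j := by rw [hS, Finset.card_powersetCard, Finset.card_univ]
  -- the missed elements
  have h1 : ∑ A' ∈ S, ((univ : Finset G).filter (fun x => x ∉ A'.image Prod.fst)).card =
      ∑ x : G, (S.filter (fun A' => x ∉ A'.image Prod.fst)).card := by
    simp_rw [Finset.card_filter]
    rw [Finset.sum_comm]
  have h2 : ∀ x : G, (S.filter (fun A' => x ∉ A'.image Prod.fst)).card = (N' - m).choose j := by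
    intro x
    have e1 : S.filter (fun A' => x ∉ A'.image Prod.fst) =
        powersetCard j ((univ : Finset (G × H)).filter (fun p => p.1 ≠ x)) := by
      ext A'
      rw [mem_filter, hS, Finset.mem_powersetCard, Finset.mem_powersetCard]
      constructor
      · rintro ⟨⟨-, h⟩, hx⟩
        refine ⟨?_, h⟩
        intro p hp
        rw [mem_filter]
        refine ⟨mem_univ _, fun h => hx ?_⟩
        rw [← h]
        exact mem_image_of_mem _ hp
      · rintro ⟨h, hj⟩
        refine ⟨⟨Finset.subset_univ _, hj⟩, ?_⟩
        intro hx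
        obtain ⟨p, hp, hpx⟩ := mem_image.mp hx
        exact (mem_filter.mp (h hp)).2 hpx
    have e2 : ((univ : Finset (G × H)).filter (fun p => p.1 ≠ x)).card = N' - m := by
      have e3 : ((univ : Finset (G × H)).filter (fun p => p.1 = x)).card = m := by
        have : (univ : Finset (G × H)).filter (fun p => p.1 = x) = {x} ×ˢ (univ : Finset H) := by
          ext p
          simp only [mem_filter, mem_univ, true_and, mem_product, mem_singleton, and_true]
        rw [this, Finset.card_product, Finset.card_singleton, Finset.card_univ, one_mul]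
      have e4 := Finset.card_filter_add_card_filter_not (s := (univ : Finset (G × H)))
        (fun p => p.1 = x)
      rw [e3, Finset.card_univ, ← hN'] at e4
      have e5 : ((univ : Finset (G × H)).filter (fun p => p.1 ≠ x)).card =
        ((univ : Finset (G × H)).filter (fun p => ¬ p.1 = x)).card := rfl
      rw [e5]; omega
    rw [e1, Finset.card_powersetCard, e2]
  have h3 : (∑ A' ∈ S, (((univ : Finset G).filter (fun x => x ∉ A'.image Prod.fst)).card : ℝ)) ≤
      N * Real.exp (-((j:ℝ) / N)) * (N'.choose j : ℝ) := by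
    have e1 : (∑ A' ∈ S, (((univ : Finset G).filter (fun x => x ∉ A'.image Prod.fst)).card : ℝ)) =
        N * ((N' - m).choose j : ℝ) := by
      have := h1
      rw [Finset.sum_congr rfl (fun x _ => h2 x), Finset.sum_const, Finset.card_univ, smul_eq_mul]
        at this
      exact_mod_cast this
    rw [e1, mul_assoc]
    have hNr : (0:ℝ) < N := by exact_mod_cast hG
    have hmr : (0:ℝ) < m := by exact_mod_cast hH
    apply mul_le_mul_of_nonneg_left _ hNr.le
    refine (choose_ratio N' j m hN'pos (by rw [hNm]; exact Nat.le_mul_of_pos_left _ hG)).trans ?_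
    apply mul_le_mul_of_nonneg_right _ (by positivity)
    have e2 : (m:ℝ) / N' = 1 / N := by
      rw [hNm]; push_cast; field_simp
    rw [e2]
    have e3 := Real.add_one_le_exp (-(1 / (N:ℝ)))
    have e4 : 0 ≤ 1 - 1 / (N:ℝ) := by
      rw [sub_nonneg, div_le_one hNr]
      exact_mod_cast hG
    calc (1 - 1 / (N:ℝ)) ^ j ≤ (Real.exp (-(1 / (N:ℝ)))) ^ j := by
          apply pow_le_pow_left₀ e4; linarith
      _ = Real.exp (-((j:ℝ) / N)) := by
          rw [← Real.exp_nat_mul]; congr 1; ring
  -- splitting
  have h4 : ∀ A' ∈ S, (if A' ∈ Y then (0:ℝ) else ((j:ℝ) - k)) + ((N:ℝ) - j) ≤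
      (((univ : Finset G).filter (fun x => x ∉ A'.image Prod.fst)).card : ℝ) := by
    intro A' hA'
    obtain ⟨-, hj⟩ := Finset.mem_powersetCard.mp hA'
    have e1 : ((univ : Finset G).filter (fun x => x ∉ A'.image Prod.fst)).card +
        (A'.image Prod.fst).card = N := by
      have : (univ : Finset G).filter (fun x => x ∉ A'.image Prod.fst) =
          (A'.image Prod.fst)ᶜ := by
        ext x; simp
      rw [this, Finset.card_compl_add_card]
    have e2 : (A'.image Prod.fst).card ≤ j := by
      rw [← hj]; exact Finset.card_image_le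
    have e1' : (((univ : Finset G).filter (fun x => x ∉ A'.image Prod.fst)).card : ℝ) +
        ((A'.image Prod.fst).card : ℝ) = N := by exact_mod_cast e1
    have e2' : ((A'.image Prod.fst).card : ℝ) ≤ j := by exact_mod_cast e2
    split_ifs with h
    · linarith
    · have h5 : ¬ k ≤ (A'.image Prod.fst).card := fun h6 => h ((hY A').mpr ⟨hj, h6⟩)
      have h6 : ((A'.image Prod.fst).card : ℝ) ≤ k := by
        exact_mod_cast (by omega : (A'.image Prod.fst).card ≤ k)
      linarith
  have h5 := Finset.sum_le_sum h4
  rw [Finset.sum_add_distrib, Finset.sum_const, hScard, nsmul_eq_mul] at h5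
  have h6 : ∑ A' ∈ S, (if A' ∈ Y then (0:ℝ) else ((j:ℝ) - k)) =
      ((j:ℝ) - k) * ((N'.choose j : ℝ) - Y.card) := by
    have e1 : ∀ A' ∈ S, (if A' ∈ Y then (0:ℝ) else ((j:ℝ) - k)) =
        ((j:ℝ) - k) - (if A' ∈ Y then ((j:ℝ) - k) else 0) := by
      intro A' _
      split_ifs <;> ring
    rw [Finset.sum_congr rfl e1, Finset.sum_sub_distrib, Finset.sum_const, hScard, nsmul_eq_mul,
      ← Finset.sum_filter, Finset.sum_const, nsmul_eq_mul]
    have e2 : S.filter (fun A' => A' ∈ Y) = Y := by
      ext A'
      rw [mem_filter, hS, Finset.mem_powersetCard]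
      constructor
      · rintro ⟨_, h⟩; exact h
      · intro h; exact ⟨⟨Finset.subset_univ _, ((hY A').mp h).1⟩, h⟩
    rw [e2]; ring
  rw [h6] at h5
  nlinarith

end proj

end Pool.Agent.Y940.Cov
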