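import Mathlib
import Pool.Agent.W252.CoverCount

set_option autoImplicit false
set_option linter.unusedVariables false

open Finset Filter

namespace Pool.Agent.Y940.Cov

open Pool.Agent.Helper274.Cover
open Pool.Agent.W252.Cover

theorem exp_sub_ge (x y : ℝ) (hx : 0 ≤ x) (hy : 0 ≤ y) :
    Real.exp (-x) - y ≤ Real.exp (-x - y) := by
  have h1 := Real.add_one_le_exp (-y)
  have h2 : Real.exp (-x) ≤ 1 := Real.exp_le_one_iff.mpr (by linarith)
  have h3 := Real.exp_pos (-x)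
  rw [sub_eq_add_neg (-x), Real.exp_add]
  nlinarith

/-- With high probability every `T` with `|T| ≤ C k` leaves at least a proportion
`e^{-|T| j / N} - η` of the group uncovered by the last `j` entries, for all `j` at once. -/
theorem whp_process (C η : ℝ) (hC : 0 ≤ C) (hη : 0 < η) :
    WHP (fun G _ _ _ L => L.Nodup → ∀ T : Finset G, (T.card : ℝ) ≤ C * L.length →
      ∀ j : ℕ, j ≤ L.length →
      Real.exp (-((T.card : ℝ) * j / Fintype.card G)) - η ≤
        unc T (suf j L) / Fintype.card G) := by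
  obtain ⟨K, hKdef⟩ : ∃ K : ℕ, K = ⌈C⌉₊ + 1 := ⟨_, rfl⟩
  have hK : 1 ≤ K := by omega
  have hKr : (1:ℝ) ≤ K := by exact_mod_cast hK
  have hCK : C ≤ K := by
    rw [hKdef]; push_cast
    have := Nat.le_ceil C
    linarith
  -- the number of blocks
  obtain ⟨m, hm⟩ := exists_nat_ge (4 * C + 2 * (5 * C + 16 * C ^ 2) / η + 1)
  have hpos1 : 0 ≤ 2 * (5 * C + 16 * C ^ 2) / η := by positivity
  have hm1 : (1:ℝ) ≤ m := by linarith
  have hm1' : 1 ≤ m := by exact_mod_cast hm1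
  have hm2 : 4 * C ≤ m := by linarith
  have hm3 : (5 * C + 16 * C ^ 2) / m ≤ η / 2 := by
    rw [div_le_iff₀ (by linarith)]
    have h1 : 2 * (5 * C + 16 * C ^ 2) / η ≤ m := by linarith
    rw [div_le_iff₀ hη] at h1
    linarith
  -- `β`, `ε`, `n`
  obtain ⟨β, hβdef⟩ : ∃ β : ℝ, β = η / (16 * (C + 1)) := ⟨_, rfl⟩
  have hβpos : 0 < β := by rw [hβdef]; positivity
  obtain ⟨ε, hεdef⟩ : ∃ ε : ℝ, ε = min 1 (η / (8 * (m * K))) := ⟨_, rfl⟩
  have hεpos : 0 < ε := by rw [hεdef]; positivity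
  have hε1 : ε ≤ 1 := by rw [hεdef]; exact min_le_left _ _
  have hε2 : m * (ε * K) ≤ η / 8 := by
    have h1 : ε ≤ η / (8 * (m * K)) := by rw [hεdef]; exact min_le_right _ _
    calc m * (ε * K) ≤ m * (η / (8 * (m * K)) * K) := by gcongr
      _ = η / 8 := by field_simp
  obtain ⟨n, hn⟩ := exists_pow_lt_of_lt_one
    (show (0:ℝ) < β / (Real.exp (12 * K) + 2) by positivity)
    (show (1 / 4 : ℝ) < 1 by norm_num)
  have hβ : (1 / 4 : ℝ) ^ n * (Real.exp (12 * K) + 2) ≤ β := by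
    rw [lt_div_iff₀ (by positivity)] at hn
    exact hn.le
  have h1 := whp_transfer K 2 (2 * (2 * n)) 0 hK (by omega) ε hεpos hε1 (FL 2 (2 * n))
    (by
      filter_upwards [eventually_ge_atTop 1] with Λ hΛ z
      exact FL_bound 2 (2 * n) Λ z hΛ)
    (by
      filter_upwards [eventually_ge_atTop 1] with Λ hΛ r
      exact bin_FL_nonneg 2 n Λ r hΛ)
  have h2 := whp_mom K hK (2 * n) 4 1 one_pos
  refine (h1.and h2).mono ?_
  filter_upwards [eventually_lam_pow_le 0 ((m:ℝ) ^ 2), eventually_le_lam (2 + 2 * (2 * n : ℕ))]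
    with N hk0 hΛn G _ _ _ hG L hLlen hP hnd T hTC0 j hj
  subst hG
  set N := Fintype.card G with hN
  obtain ⟨_, hTr⟩ := hP.1 hnd
  have hMom := hP.2 hnd
  have hkm : m ^ 2 ≤ L.length := by
    rw [hLlen]
    have : ((m:ℝ)) ^ 2 ≤ Nat.sqrt N := by simpa using hk0
    exact_mod_cast this
  have hk1 : 1 ≤ L.length := le_trans (Nat.one_le_pow _ _ hm1') hkm
  have hΛ1 : 1 ≤ lam N := lam_pos N
  have hLN : L.length ^ 2 ≤ N := by rw [hLlen]; exact Nat.sqrt_le' N
  have hLN2 : N ≤ L.length ^ 2 + 2 * L.length := by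
    rw [hLlen]
    have := Nat.lt_succ_sqrt' N
    have e : (Nat.sqrt N).succ ^ 2 = Nat.sqrt N ^ 2 + 2 * Nat.sqrt N + 1 := by
      rw [Nat.succ_eq_add_one]; ring
    omega
  set Λ : ℕ := lam N with hΛdef
  have hΛr : (1:ℝ) ≤ Λ := by exact_mod_cast hΛ1
  obtain ⟨hγ0, hγ1⟩ := gamma_bounds 2 Λ hΛ1
  rw [← hLlen] at hTr
  have htail : (1 - ((Λ:ℝ) ^ 2)⁻¹) ^ (Λ ^ 4) * (1 + 2 * (L.length:ℝ)) ^ (2 * n) ≤ 1 := by
    have h3 : (1 - ((Λ:ℝ) ^ 2)⁻¹) ^ (Λ ^ 4) ≤ Real.exp (-(Λ:ℝ) ^ 2) := by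
      calc (1 - ((Λ:ℝ) ^ 2)⁻¹) ^ (Λ ^ 4) ≤
          (Real.exp (-((Λ:ℝ) ^ 2)⁻¹)) ^ (Λ ^ 4) := by
            apply pow_le_pow_left₀ hγ0
            have := Real.add_one_le_exp (-((Λ:ℝ) ^ 2)⁻¹)
            linarith
        _ = Real.exp ((Λ ^ 4 : ℕ) * (-((Λ:ℝ) ^ 2)⁻¹)) := by rw [← Real.exp_nat_mul]
        _ = Real.exp (-(Λ:ℝ) ^ 2) := by
            congr 1
            push_cast
            field_simp
    have h4 : (1 + 2 * (L.length:ℝ)) ^ (2 * n) ≤ Real.exp ((2 * n : ℕ) * Λ) := by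
      have h5 : 1 + 2 * (L.length:ℝ) ≤ Real.exp Λ := by
        have h6 := le_exp_lam N
        have h7 : (L.length : ℝ) ≤ N := by
          rw [hLlen]; exact_mod_cast Nat.sqrt_le_self N
        linarith
      calc (1 + 2 * (L.length:ℝ)) ^ (2 * n) ≤ (Real.exp Λ) ^ (2 * n) := by gcongr
        _ = _ := by rw [← Real.exp_nat_mul]
    calc _ ≤ Real.exp (-(Λ:ℝ) ^ 2) * Real.exp ((2 * n : ℕ) * Λ) := by gcongr
      _ = Real.exp (-(Λ:ℝ) ^ 2 + (2 * n : ℕ) * Λ) := by rw [← Real.exp_add]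
      _ ≤ Real.exp 0 := by
          apply Real.exp_le_exp.mpr
          have hQ0 : (0:ℝ) ≤ (2 * n : ℕ) := by positivity
          have : (Λ:ℝ) * (2 + 2 * (2 * n : ℕ)) ≤ Λ * Λ := by gcongr
          nlinarith
      _ = 1 := Real.exp_zero
  obtain ⟨k, hk⟩ : ∃ k, k = L.length := ⟨_, rfl⟩
  have hkm' : (m:ℝ) ^ 2 ≤ k := by rw [hk]; exact_mod_cast hkm
  have hk1' : (1:ℝ) ≤ k := by rw [hk]; exact_mod_cast hk1
  have hTK : T.card ≤ K * L.length := by
    have h3 : (T.card : ℝ) ≤ K * L.length := by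
      refine hTC0.trans ?_
      gcongr
    exact_mod_cast h3
  -- the constant of `T`
  obtain ⟨D, hD⟩ : ∃ D : ℝ, D = T.card / k := ⟨_, rfl⟩
  have hD0 : 0 ≤ D := by rw [hD]; positivity
  have hDC : D ≤ C := by
    rw [hD, div_le_iff₀ (by linarith), hk]; exact hTC0
  have hTC : (T.card : ℝ) ≤ D * L.length := by
    rw [hD, ← hk]
    have : (k:ℝ) ≠ 0 := by linarith
    field_simp
    exact le_refl _
  obtain ⟨θ, hθ⟩ : ∃ θ : ℝ, θ = D / m + D / m ^ 2 := ⟨_, rfl⟩
  have hθ0 : 0 ≤ θ := by rw [hθ]; positivity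
  have hθle : θ ≤ 2 * C / m := by
    rw [hθ]
    have h1 : D / (m:ℝ) ^ 2 ≤ D / m := by
      apply div_le_div_of_nonneg_left hD0 (by positivity)
      nlinarith
    have h2 : 2 * C / m = C / m + C / m := by ring
    have h3 : D / m ≤ C / m := by gcongr
    linarith
  have hθ1 : θ ≤ 1 / 2 := by
    refine hθle.trans ?_
    rw [div_le_iff₀ (by linarith)]
    linarith
  have hmθ : m * θ = D + D / m := by
    rw [hθ]; field_simp
  have hβ2 : (m * θ) * β ≤ η / 8 := by
    rw [hmθ, hβdef]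
    have h1 : D + D / m ≤ 2 * (C + 1) := by
      have : D / m ≤ D := div_le_self hD0 hm1
      linarith
    calc (D + D / m) * (η / (16 * (C + 1))) ≤ (2 * (C + 1)) * (η / (16 * (C + 1))) := by gcongr
      _ = η / 8 := by field_simp; ring
  obtain ⟨M, hM⟩ : ∃ M, M = k / m + 1 := ⟨_, rfl⟩
  have hMle : (M:ℝ) ≤ k / m + 1 := by
    rw [hM]; push_cast
    have : ((k / m : ℕ) : ℝ) ≤ (k:ℝ) / m := Nat.cast_div_le
    linarith
  have hMge : k ≤ m * M := by
    rw [hM]
    exact (Nat.lt_mul_div_succ k (by omega)).le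
  have hCM : D * M ≤ θ * k := by
    have h3 : D * M ≤ D * (k / m + 1) := by gcongr
    have h4 : D * (k / m + 1) ≤ θ * k := by
      rw [hθ]
      have h5 : D ≤ D / (m:ℝ) ^ 2 * k := by
        rw [div_mul_eq_mul_div, le_div_iff₀ (by positivity)]
        gcongr
      calc D * (k / m + 1) = D / m * k + D := by ring
        _ ≤ D / m * k + D / (m:ℝ) ^ 2 * k := by linarith
        _ = _ := by ring
    linarith
  -- induction over the blocks
  have hblocks : ∀ a : ℕ, (1 - θ) ^ a - a * (θ * β + ε * K) ≤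
      unc T (suf (min (a * M) k) L) / N := by
    intro a
    induction a with
    | zero =>
      have h3 : min (0 * M) k = 0 := by simp
      rw [h3, suf_zero, unc_nil, ← hN]
      have hNpos : (0:ℝ) < N := by
        rw [hN]; exact_mod_cast Fintype.card_pos
      rw [div_self hNpos.ne']
      simp
    | succ a ih =>
      have hle : min (a * M) k ≤ min ((a + 1) * M) k :=
        min_le_min_right _ (Nat.mul_le_mul_right _ (Nat.le_succ a))
      have hb1 := block_step_gen K n (Λ ^ 4) 2 Λ (2 * Λ ^ (2 * (2 * (2 * n)) + 3)) ε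
        ((Λ:ℝ) ^ 0 * (K * L.length)) β D θ L hnd hK hΛ1 hk1 hLN hβ hTr hεpos.le hMom htail
        (by simp) T hTK hD0 hTC (min (a * M) k) (min ((a + 1) * M) k) hle
        (by rw [hk]; exact min_le_right _ _)
        (by
          have h6 : min ((a + 1) * M) k - min (a * M) k ≤ M := by
            have h5 : (a + 1) * M = a * M + M := by ring
            rw [h5]
            exact Pool.Agent.W252.Cover.min_sub_min_le' _ _ _
          have h7 : ((min ((a + 1) * M) k : ℕ) : ℝ) - ((min (a * M) k : ℕ) : ℝ) ≤ M := by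
            rw [← Nat.cast_sub hle]
            exact_mod_cast h6
          rw [← hk]
          refine le_trans ?_ hCM
          exact mul_le_mul_of_nonneg_left h7 hD0)
      rw [← hN] at hb1
      rw [pow_succ]
      have h8 : 0 ≤ θ * β + ε * K := by positivity
      have h9 : (1 - θ) * ((1 - θ) ^ a - a * (θ * β + ε * K)) ≤
          (1 - θ) * (unc T (suf (min (a * M) k) L) / N) :=
        mul_le_mul_of_nonneg_left ih (by linarith)
      have h10 : (1 - θ) * (a * (θ * β + ε * K)) ≤ a * (θ * β + ε * K) := by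
        have : 0 ≤ (a:ℝ) * (θ * β + ε * K) := by positivity
        nlinarith
      push_cast
      linarith
  -- the final estimate
  have hM1 : 1 ≤ M := by rw [hM]; exact Nat.le_add_left 1 _
  obtain ⟨a, ha⟩ : ∃ a, a = j / M + 1 := ⟨_, rfl⟩
  have hja : j ≤ a * M := by
    rw [ha, mul_comm]
    exact (Nat.lt_mul_div_succ j (by omega)).le
  have hjk : j ≤ k := by rw [hk]; exact hj
  have hfin := hblocks a
  have hmono : unc T (suf (min (a * M) k) L) ≤ unc T (suf j L) := by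
    apply unc_le_of_suffix
    exact List.suffix_of_suffix_length_le (suf_suffix j L) (suf_suffix _ L) (by
      rw [length_suf hj, length_suf (by rw [← hk]; exact min_le_right _ _)]
      exact le_min hja hjk)
  have hNpos : (0:ℝ) < N := by
    rw [hN]; exact_mod_cast Fintype.card_pos
  have hfin2 : (1 - θ) ^ a - a * (θ * β + ε * K) ≤ unc T (suf j L) / N :=
    hfin.trans (by gcongr)
  have hmpos : (0:ℝ) < m := by linarith
  have hkpos : (0:ℝ) < k := by linarith
  have hjr : (j:ℝ) ≤ k := by exact_mod_cast hjk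
  have hMk : (k:ℝ) / m ≤ M := by
    rw [div_le_iff₀ hmpos]
    have : (k:ℝ) ≤ (m:ℝ) * M := by exact_mod_cast hMge
    linarith
  have hale : (a:ℝ) ≤ j * m / k + 1 := by
    have h3 : ((j / M : ℕ) : ℝ) ≤ (j:ℝ) / M := Nat.cast_div_le
    have h4 : (j:ℝ) / M ≤ j / (k / m) := by
      apply div_le_div_of_nonneg_left (by positivity) (by positivity) hMk
    have h5 : (j:ℝ) / (k / m) = j * m / k := by field_simp
    rw [ha]; push_cast
    linarith
  have ham : (a:ℝ) ≤ 2 * m := by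
    have h3 : (j:ℝ) * m / k ≤ m := by
      rw [div_le_iff₀ hkpos]
      nlinarith
    linarith
  have herr : (a:ℝ) * (θ * β + ε * K) ≤ η / 2 := by
    have h3 : 0 ≤ θ * β + ε * K := by positivity
    calc (a:ℝ) * (θ * β + ε * K) ≤ (2 * m) * (θ * β + ε * K) := by gcongr
      _ = 2 * ((m * θ) * β + m * (ε * K)) := by ring
      _ ≤ 2 * (η / 8 + η / 8) := by gcongr
      _ = η / 2 := by ring
  have hpow : Real.exp (-(D * j / k)) - (3 * C + 16 * C ^ 2) / m ≤ (1 - θ) ^ a := by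
    have h1 := one_sub_ge_exp θ hθ0 hθ1
    have h2 : (Real.exp (-θ - 2 * θ ^ 2)) ^ a ≤ (1 - θ) ^ a :=
      pow_le_pow_left₀ (Real.exp_pos _).le h1 a
    rw [← Real.exp_nat_mul] at h2
    refine le_trans ?_ h2
    have h3 : (a:ℝ) * θ ≤ D * j / k + 3 * C / m := by
      have e1 : (a:ℝ) * θ ≤ (j * m / k + 1) * θ := by gcongr
      have e2 : (j * m / k + 1) * θ = j / k * (m * θ) + θ := by ring
      have e3 : j / k * (m * θ) = D * j / k + (j / k) * (D / m) := by
        rw [hmθ]; ring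
      have e4 : (j:ℝ) / k ≤ 1 := by rw [div_le_one hkpos]; exact hjr
      have e5 : (j:ℝ) / k * (D / m) ≤ 1 * (C / m) := by gcongr
      have e6 : 3 * C / m = C / m + 2 * C / m := by ring
      linarith
    have h4 : (a:ℝ) * (2 * θ ^ 2) ≤ 16 * C ^ 2 / m := by
      have e1 : θ ^ 2 ≤ (2 * C / m) ^ 2 := pow_le_pow_left₀ hθ0 hθle 2
      calc (a:ℝ) * (2 * θ ^ 2) ≤ (2 * m) * (2 * (2 * C / m) ^ 2) := by gcongr
        _ = 16 * C ^ 2 / m := by field_simp; ring
    have h5 : 0 ≤ D * j / k := by positivity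
    have h6 : 0 ≤ (3 * C + 16 * C ^ 2) / m := by positivity
    refine (exp_sub_ge _ _ h5 h6).trans ?_
    apply Real.exp_le_exp.mpr
    have h7 : (3 * C + 16 * C ^ 2) / (m:ℝ) = 3 * C / m + 16 * C ^ 2 / m := by ring
    have h8 : (a:ℝ) * (-θ - 2 * θ ^ 2) = -(a * θ) - a * (2 * θ ^ 2) := by ring
    rw [h7, h8]
    linarith
  have hexp : Real.exp (-((T.card : ℝ) * j / N)) - 2 * C / m ≤ Real.exp (-(D * j / k)) := by
    have h3 : 0 ≤ (T.card : ℝ) * j / N := by positivity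
    have h4 : 0 ≤ 2 * C / m := by positivity
    refine (exp_sub_ge _ _ h3 h4).trans ?_
    apply Real.exp_le_exp.mpr
    have h5 : D * j / k = T.card * j / (k:ℝ) ^ 2 := by
      rw [hD]; field_simp
    have h6 : (k:ℝ) ^ 2 ≤ N := by rw [hk]; exact_mod_cast hLN
    have h7 : (N:ℝ) ≤ (k:ℝ) ^ 2 + 2 * k := by rw [hk]; exact_mod_cast hLN2
    have h8 : (T.card : ℝ) ≤ C * k := by rw [hk]; exact hTC0
    have h9 : (T.card : ℝ) * j / (k:ℝ) ^ 2 - T.card * j / N ≤ 2 * C / m := by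
      have e1 : (T.card : ℝ) * j / (k:ℝ) ^ 2 - T.card * j / N =
          (T.card * j) * (N - (k:ℝ) ^ 2) / ((k:ℝ) ^ 2 * N) := by
        field_simp
      rw [e1, div_le_div_iff₀ (by positivity) hmpos]
      have e2 : (T.card : ℝ) * j ≤ (C * k) * k := by gcongr
      have e3 : (N:ℝ) - (k:ℝ) ^ 2 ≤ 2 * k := by linarith
      have e4 : (T.card * j : ℝ) * (N - (k:ℝ) ^ 2) * m ≤ ((C * k) * k) * (2 * k) * m := by
        have : 0 ≤ (N:ℝ) - (k:ℝ) ^ 2 := by linarith
        gcongr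
      have e5 : (m:ℝ) * k ≤ N := by
        have : (m:ℝ) ≤ m ^ 2 := by nlinarith
        nlinarith
      calc (T.card * j : ℝ) * (N - (k:ℝ) ^ 2) * m ≤ ((C * k) * k) * (2 * k) * m := e4
        _ = 2 * C * ((k:ℝ) ^ 2 * (m * k)) := by ring
        _ ≤ 2 * C * ((k:ℝ) ^ 2 * N) := by gcongr
    rw [h5]
    linarith
  have h9 : (5 * C + 16 * C ^ 2) / (m:ℝ) = (3 * C + 16 * C ^ 2) / m + 2 * C / m := by ring
  linarith

end Pool.Agent.Y940.Cov
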