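import Mathlib
import Pool.Agent.Y940.Cov.Proc

set_option autoImplicit false
set_option linter.unusedVariables false

open Finset Filter
open scoped Pointwise

namespace Pool.Agent.Y940.Cov

open Pool.Agent.Helper274.Cover
open Pool.Agent.W252.Cover

theorem append_count {G : Type*} [Fintype G] [DecidableEq G] (i j : ℕ)
    (B : Finset (Finset G)) (hB : ∀ A ∈ B, A.card = j) :
    (j.factorial * B.card) * (Fintype.card G - j).descFactorial i ≤
      ((univ : Finset (Fin (i + j) → G)).filter
      (fun a => Function.Injective a ∧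
        univ.image (fun u : Fin j => a (Fin.natAdd i u)) ∈ B)).card := by
  classical
  set X := (univ : Finset (Fin j → G)).filter
    (fun b => Function.Injective b ∧ univ.image b ∈ B) with hX
  have h1 : j.factorial * B.card ≤ X.card := factorial_mul_le j B hB
  have h2 : ∀ b ∈ X, (Fintype.card G - j).descFactorial i ≤
      ((univ : Finset (Fin i → G)).filter
        (fun c => Function.Injective c ∧ ∀ u, c u ∉ univ.image b)).card := by
    intro b hb
    have hbj : (univ.image b).card = j := hB _ (mem_filter.mp hb).2.2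
    have h3 : Fintype.card (Fin i ↪ {x // x ∉ univ.image b}) =
        (Fintype.card G - j).descFactorial i := by
      rw [Fintype.card_embedding_eq, Fintype.card_fin]
      congr 1
      rw [Fintype.card_subtype_compl, Fintype.card_coe, hbj]
    rw [← h3, ← Finset.card_univ]
    apply Finset.card_le_card_of_injOn
      (fun (e : Fin i ↪ {x // x ∉ univ.image b}) (u : Fin i) => ((e u : {x // x ∉ univ.image b}) : G))
    · intro e _
      rw [Finset.mem_coe, mem_filter]
      refine ⟨mem_univ _, ?_, fun u => (e u).2⟩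
      intro u v huv
      exact e.injective (Subtype.ext huv)
    · intro e _ e' _ h
      ext u
      exact congrFun h u
  have h3 : X.card * (Fintype.card G - j).descFactorial i ≤
      (X.sigma (fun b => (univ : Finset (Fin i → G)).filter
        (fun c => Function.Injective c ∧ ∀ u, c u ∉ univ.image b))).card := by
    rw [Finset.card_sigma, ← smul_eq_mul, ← Finset.sum_const]
    exact Finset.sum_le_sum h2
  refine (Nat.mul_le_mul_right _ h1).trans (h3.trans ?_)
  apply Finset.card_le_card_of_injOn
    (fun (p : Σ _ : (Fin j → G), (Fin i → G)) => Fin.append p.2 p.1)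
  · rintro ⟨b, c⟩ hp
    have hp' := Finset.mem_sigma.mp (Finset.mem_coe.mp hp)
    obtain ⟨hb, hc⟩ := hp'
    simp only at hb hc
    obtain ⟨-, hbi, hbB⟩ := mem_filter.mp hb
    obtain ⟨-, hci, hcb⟩ := mem_filter.mp hc
    rw [Finset.mem_coe, mem_filter]
    refine ⟨mem_univ _, ?_, ?_⟩
    · rw [Fin.append_injective_iff]
      refine ⟨hci, hbi, ?_⟩
      intro u v huv
      have huv' : c u = b v := huv
      exact hcb u (by rw [huv']; exact mem_image_of_mem _ (mem_univ _))
    · have : (fun u : Fin j => Fin.append c b (Fin.natAdd i u)) = b := by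
        funext u
        exact Fin.append_right c b u
      simp only [this]
      exact hbB
  · rintro ⟨b, c⟩ - ⟨b', c'⟩ - h
    have hb : b = b' := by
      funext u
      have := congrFun h (Fin.natAdd i u)
      simpa using this
    have hc : c = c' := by
      funext u
      have := congrFun h (Fin.castAdd j u)
      simpa using this
    subst hb; subst hc; rfl

theorem suf_ofFn {G : Type*} (i j : ℕ) (a : Fin (i + j) → G) :
    suf j (List.ofFn a) = List.ofFn (fun u : Fin j => a (Fin.natAdd i u)) := by
  rw [List.ofFn_add]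
  have := suf_eq_of_suffix (l := List.ofFn (fun u : Fin j => a (Fin.natAdd i u)))
    (L := List.ofFn (fun u : Fin i => a (Fin.castAdd j u)) ++
      List.ofFn (fun u : Fin j => a (Fin.natAdd i u))) (List.suffix_append _ _)
  rw [List.length_ofFn] at this
  exact this

/-- The `j`-subsets `A` with a set `T`, `|T| ≤ s`, covering at least a proportion
`1 - e^{-j|T|/N} + η`. -/
noncomputable def badSet (G : Type) [AddCommGroup G] [Fintype G] [DecidableEq G]
    (j : ℕ) (s η : ℝ) : Finset (Finset G) := by
  classical
  exact (univ : Finset (Finset G)).filter (fun A => A.card = j ∧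
    ∃ T : Finset G, (T.card : ℝ) ≤ s ∧
      (1 - Real.exp (-((T.card : ℝ) * j / Fintype.card G)) + η) * Fintype.card G ≤
        ((A + T).card : ℝ))

theorem mem_badSet {G : Type} [AddCommGroup G] [Fintype G] [DecidableEq G]
    (j : ℕ) (s η : ℝ) (A : Finset G) : A ∈ badSet G j s η ↔ (A.card = j ∧
    ∃ T : Finset G, (T.card : ℝ) ≤ s ∧
      (1 - Real.exp (-((T.card : ℝ) * j / Fintype.card G)) + η) * Fintype.card G ≤
        ((A + T).card : ℝ)) := by
  unfold badSet
  simp only [mem_filter, mem_univ, true_and]

theorem badSet_card_le (C η δ : ℝ) (hC : 0 ≤ C) (hη : 0 < η) (hδ : 0 < δ) :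
    ∀ᶠ N : ℕ in atTop, ∀ (G : Type) [AddCommGroup G] [Fintype G] [DecidableEq G],
      Fintype.card G = N → ∀ j : ℕ, j ≤ Nat.sqrt N →
      ((badSet G j (C * Nat.sqrt N) η).card : ℝ) ≤ δ * (N.choose j : ℝ) := by
  filter_upwards [whp_process C (η / 2) hC (by linarith) (δ / 2) (by linarith),
    eventually_ge_atTop 1] with N hN hN1 G _ _ _ hG j hj
  have h1 := hN G hG
  subst hG
  set N := Fintype.card G with hNdef
  obtain ⟨i, hi⟩ : ∃ i, i + j = Nat.sqrt N := ⟨Nat.sqrt N - j, by omega⟩
  have hkN : (i + j) ^ 2 ≤ N := by rw [hi]; exact Nat.sqrt_le' N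
  have hkN' : i + j ≤ N := by rw [hi]; exact Nat.sqrt_le_self N
  rw [← hi] at h1
  have h2 := append_count i j (badSet G j (C * Nat.sqrt N) η) (by
    intro A hA
    exact ((mem_badSet _ _ _ _).mp hA).1)
  have h3 := card_le_bad (P := fun L : List G => L.Nodup → ∀ T : Finset G,
      (T.card : ℝ) ≤ C * L.length → ∀ j : ℕ, j ≤ L.length →
      Real.exp (-((T.card : ℝ) * j / Fintype.card G)) - η / 2 ≤
        unc T (suf j L) / Fintype.card G)
    ((univ : Finset (Fin (i + j) → G)).filter
      (fun a => Function.Injective a ∧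
        univ.image (fun u : Fin j => a (Fin.natAdd i u)) ∈ badSet G j (C * Nat.sqrt N) η)) (by
    intro a ha hP
    obtain ⟨_, hinj, hcov⟩ := mem_filter.mp ha
    obtain ⟨_, T, hT, hTcov⟩ := (mem_badSet _ _ _ _).mp hcov
    have hx := hP (List.nodup_ofFn.mpr hinj) T (by
      rw [List.length_ofFn, hi]; exact hT) j (by rw [List.length_ofFn]; omega)
    rw [suf_ofFn] at hx
    have h4 := unc_eq T (List.ofFn (fun u : Fin j => a (Fin.natAdd i u)))
      (univ.image (fun u : Fin j => a (Fin.natAdd i u))) (by
      intro x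
      rw [List.mem_ofFn, mem_image]
      constructor
      · rintro ⟨u, hu⟩; exact ⟨u, mem_univ _, hu⟩
      · rintro ⟨u, -, hu⟩; exact ⟨u, hu⟩)
    have hNpos : (0:ℝ) < N := by exact_mod_cast hN1
    rw [← hNdef] at hTcov h4 hx
    rw [le_div_iff₀ hNpos] at hx
    have : 0 < η / 2 * (N:ℝ) := by positivity
    nlinarith)
  have h4 := pow_le_two_descFactorial N (i + j) hkN hN1
  have h5 : (N.descFactorial (i + j) : ℝ) =
      (j.factorial * (N - j).descFactorial i : ℕ) * (N.choose j : ℝ) := by
    have e1 := Nat.descFactorial_mul_descFactorial (n := N) (k := j) (m := i + j) (by omega)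
    have e2 : i + j - j = i := by omega
    rw [e2] at e1
    rw [← e1, Nat.descFactorial_eq_factorial_mul_choose N j]; push_cast; ring
  have hfact : (0:ℝ) < (j.factorial * (N - j).descFactorial i : ℕ) := by
    have e1 : 0 < (N - j).descFactorial i := Nat.descFactorial_pos.mpr (by omega)
    exact_mod_cast Nat.mul_pos (Nat.factorial_pos j) e1
  have h6 : ((j.factorial * (N - j).descFactorial i : ℕ) : ℝ) *
      ((badSet G j (C * Nat.sqrt N) η).card : ℝ) ≤
      ((j.factorial * (N - j).descFactorial i : ℕ) : ℝ) * (δ * (N.choose j : ℝ)) := by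
    calc ((j.factorial * (N - j).descFactorial i : ℕ) : ℝ) *
        ((badSet G j (C * Nat.sqrt N) η).card : ℝ) =
        ((j.factorial * (badSet G j (C * Nat.sqrt N) η).card) *
          (N - j).descFactorial i : ℕ) := by push_cast; ring
      _ ≤ _ := by exact_mod_cast h2
      _ ≤ _ := h3
      _ ≤ δ / 2 * (N:ℝ) ^ (i + j) := h1
      _ ≤ δ / 2 * (2 * (N.descFactorial (i + j) : ℝ)) := by gcongr
      _ = _ := by rw [h5]; ring
  exact le_of_mul_le_mul_left h6 hfact

end Pool.Agent.Y940.Cov
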