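import Mathlib
import Pool.Agent.Y940.Cov.Sub
import Pool.Agent.Y940.Cov.Proj

set_option autoImplicit false
set_option linter.unusedVariables false

open Finset Filter
open scoped Pointwise

namespace Pool.Agent.Y940.Cov

/-- The `k`-subsets `A` with a set `T`, `|T| ≤ s`, covering at least a proportion
`1 - (1 - k/N)^|T| + η`. -/
noncomputable def overSet (G : Type) [AddCommGroup G] [Fintype G] [DecidableEq G]
    (k : ℕ) (s η : ℝ) : Finset (Finset G) := by
  classical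
  exact (univ : Finset (Finset G)).filter (fun A => A.card = k ∧
    ∃ T : Finset G, (T.card : ℝ) ≤ s ∧
      (1 - (1 - (k:ℝ) / Fintype.card G) ^ T.card + η) * Fintype.card G ≤ ((A + T).card : ℝ))

theorem mem_overSet {G : Type} [AddCommGroup G] [Fintype G] [DecidableEq G]
    (k : ℕ) (s η : ℝ) (A : Finset G) : A ∈ overSet G k s η ↔ (A.card = k ∧
    ∃ T : Finset G, (T.card : ℝ) ≤ s ∧
      (1 - (1 - (k:ℝ) / Fintype.card G) ^ T.card + η) * Fintype.card G ≤
        ((A + T).card : ℝ)) := by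
  unfold overSet
  simp only [mem_filter, mem_univ, true_and]

theorem lift_card {G H : Type} [AddCommGroup G] [Fintype G] [DecidableEq G]
    [AddCommGroup H] [Fintype H] [DecidableEq H] (A T : Finset G) (A' : Finset (G × H))
    (hA : A ⊆ A'.image Prod.fst) :
    (A + T).card * Fintype.card H ≤ (A' + T ×ˢ (univ : Finset H)).card := by
  rw [← Finset.card_univ, ← Finset.card_product]
  apply Finset.card_le_card
  rintro ⟨x, h⟩ hx
  obtain ⟨hx1, -⟩ := Finset.mem_product.mp hx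
  obtain ⟨a, ha, t, ht, hat⟩ := Finset.mem_add.mp hx1
  obtain ⟨⟨a', b⟩, hab, ha'⟩ := Finset.mem_image.mp (hA ha)
  rw [Finset.mem_add]
  refine ⟨(a', b), hab, (t, h - b), Finset.mem_product.mpr ⟨ht, mem_univ _⟩, ?_⟩
  have e1 : a' = a := ha'
  have e2 : a + t = x := hat
  rw [e1, Prod.mk_add_mk, e2]
  congr 1
  abel

theorem mid (C c η ε κ : ℝ) (hC : 0 ≤ C) (hc : 0 < c) (hη : 0 < η) (hε : 0 < ε)
    (hκ : 0 < κ) (hκ1 : κ < 1) :
    ∃ N₀ : ℕ, ∀ (G : Type) [AddCommGroup G] [Fintype G] [DecidableEq G],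
      N₀ ≤ Fintype.card G → ∀ k : ℕ, c * Real.sqrt (Fintype.card G) ≤ k →
        (k:ℝ) ≤ (1 - κ) * Fintype.card G →
        ((overSet G k (C * Fintype.card G / k) η).card : ℝ) ≤
          ε * ((Fintype.card G).choose k : ℝ) := by
  obtain ⟨θ, hθ⟩ : ∃ θ : ℝ, θ = min 1 (η * κ / (4 * (C + 1))) := ⟨_, rfl⟩
  have hθ0 : 0 < θ := by rw [hθ]; positivity
  have hθ1 : θ ≤ 1 := by rw [hθ]; exact min_le_left _ _
  have hθ2 : θ * (4 * (C + 1)) ≤ η * κ := by
    have : θ ≤ η * κ / (4 * (C + 1)) := by rw [hθ]; exact min_le_right _ _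
    rwa [le_div_iff₀ (by positivity)] at this
  obtain ⟨ρ, hρ⟩ : ∃ ρ : ℝ, ρ = κ ^ 2 * θ / 3 := ⟨_, rfl⟩
  have hρ0 : 0 < ρ := by rw [hρ]; positivity
  obtain ⟨C', hC'⟩ : ∃ C' : ℝ, C' = 4 * C * (3 / κ + 1 / c) := ⟨_, rfl⟩
  have hC'0 : 0 ≤ C' := by rw [hC']; positivity
  obtain ⟨N1, hN1⟩ := Filter.eventually_atTop.mp
    (badSet_card_le C' (η / 2) (ε * ρ) hC'0 (by linarith) (by positivity))
  obtain ⟨n2, hn2⟩ := exists_nat_ge ((1 / (c * θ)) ^ 2 + 1)
  refine ⟨max N1 n2, ?_⟩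
  intro G _ _ _ hNG k hk1 hk2
  obtain ⟨N, hN⟩ : ∃ N, N = Fintype.card G := ⟨_, rfl⟩
  rw [← hN] at hNG hk1 hk2 ⊢
  have hN1' : N1 ≤ N := (le_max_left _ _).trans hNG
  have hn2' : (1 / (c * θ)) ^ 2 + 1 ≤ (N:ℝ) := by
    refine hn2.trans ?_
    exact_mod_cast (le_max_right _ _).trans hNG
  have hNpos : (0:ℝ) < N := by
    have : 0 ≤ (1 / (c * θ)) ^ 2 := by positivity
    linarith
  have hNpos' : 0 < N := by exact_mod_cast hNpos
  have hs : 1 / (c * θ) ≤ Real.sqrt N := by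
    apply Real.le_sqrt_of_sq_le; linarith
  have hkθ : 1 ≤ θ * k := by
    calc (1:ℝ) = θ * (c * (1 / (c * θ))) := by field_simp
      _ ≤ θ * (c * Real.sqrt N) := by gcongr
      _ ≤ θ * k := by gcongr
  have hkpos : (0:ℝ) < k := by
    rcases Nat.eq_zero_or_pos k with h | h
    · rw [h] at hkθ; simp at hkθ; linarith
    · exact_mod_cast h
  have hk1r : (1:ℝ) ≤ k := by
    have : 0 < k := by exact_mod_cast hkpos
    exact_mod_cast this
  obtain ⟨y, hy⟩ : ∃ y : ℝ, y = (k:ℝ) / N := ⟨_, rfl⟩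
  have hyN : y * N = k := by rw [hy]; field_simp
  have hy0 : 0 < y := by rw [hy]; positivity
  have hy1 : y ≤ 1 - κ := by rw [hy, div_le_iff₀ hNpos]; exact hk2
  have h1y : 0 < 1 - y := by linarith
  obtain ⟨x0, hx0⟩ : ∃ x0 : ℝ, x0 = -Real.log (1 - y) := ⟨_, rfl⟩
  have hx1 : y ≤ x0 := by
    have := Real.log_le_sub_one_of_pos h1y
    rw [hx0]; linarith
  have hx2 : x0 ≤ y / κ := by
    have h := Real.one_sub_inv_le_log_of_pos h1y
    have h2 : (1 - y)⁻¹ - 1 ≤ y / κ := by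
      have e : (1 - y)⁻¹ - 1 = y / (1 - y) := by field_simp; ring
      rw [e]
      apply div_le_div_of_nonneg_left hy0.le hκ
      linarith
    rw [hx0]; linarith
  have hx2' : x0 ≤ 1 / κ - 1 := by
    refine hx2.trans ?_
    have : y / κ ≤ (1 - κ) / κ := by gcongr
    have e : (1 - κ) / κ = 1 / κ - 1 := by field_simp
    linarith
  have hx3 : Real.exp (-x0) = 1 - y := by rw [hx0, neg_neg, Real.exp_log h1y]
  have hx00 : 0 < x0 := lt_of_lt_of_le hy0 hx1
  have hkx : (k:ℝ) ≤ x0 * N := by rw [← hyN]; gcongr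
  obtain ⟨j, hj⟩ : ∃ j : ℕ, j = ⌈(1 + θ) * x0 * N⌉₊ := ⟨_, rfl⟩
  have hj1 : (1 + θ) * x0 * N ≤ j := by rw [hj]; exact Nat.le_ceil _
  have hj2 : (j:ℝ) ≤ (1 + 2 * θ) * (x0 * N) := by
    have h := (Nat.ceil_lt_add_one (show 0 ≤ (1 + θ) * x0 * N by positivity)).le
    rw [← hj] at h
    have h2 : θ * k ≤ θ * (x0 * N) := by gcongr
    have e : (1 + 2 * θ) * (x0 * N) = (1 + θ) * x0 * N + θ * (x0 * N) := by ring
    rw [e]; linarith
  have hj3 : (j:ℝ) ≤ 3 * (x0 * N) := by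
    refine hj2.trans ?_
    have : 0 < x0 * N := by positivity
    nlinarith
  have hkj : k ≤ j := by
    have h : (k:ℝ) ≤ j := by
      have : 0 ≤ θ * (x0 * N) := by positivity
      have e : (1 + θ) * x0 * N = x0 * N + θ * (x0 * N) := by ring
      rw [e] at hj1
      linarith
    exact_mod_cast h
  obtain ⟨m, hm⟩ : ∃ m : ℕ, m = j ^ 2 / N + 1 := ⟨_, rfl⟩
  have hm1 : j ^ 2 ≤ N * m := by
    rw [hm]; exact (Nat.lt_mul_div_succ _ hNpos').le
  have hm2 : N * m ≤ j ^ 2 + N := by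
    rw [hm, mul_add, mul_one]
    exact Nat.add_le_add_right (Nat.mul_div_le _ _) _
  have hmpos : 0 < m := by rw [hm]; exact Nat.succ_pos _
  have : NeZero m := ⟨hmpos.ne'⟩
  have hmr : (0:ℝ) < m := by exact_mod_cast hmpos
  have hcardH : Fintype.card (ZMod m) = m := ZMod.card m
  obtain ⟨N', hN'⟩ : ∃ N', N' = Fintype.card (G × ZMod m) := ⟨_, rfl⟩
  have hN'eq : N' = N * m := by rw [hN', Fintype.card_prod, hcardH, hN]
  have hN'r : (N':ℝ) = N * m := by rw [hN'eq]; push_cast; ring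
  have hjs : j ≤ Nat.sqrt N' := by
    rw [Nat.le_sqrt', hN'eq]; exact hm1
  have hN'ge : N1 ≤ N' := by
    rw [hN'eq]; exact hN1'.trans (Nat.le_mul_of_pos_right _ hmpos)
  have hbad := hN1 N' hN'ge (G × ZMod m) hN'.symm j hjs
  -- the bound for the number of translates
  obtain ⟨S, hS⟩ : ∃ S : ℝ, S = (Nat.sqrt N' : ℝ) := ⟨_, rfl⟩
  have hS1 : 1 ≤ S := by
    rw [hS]
    have : k ≤ Nat.sqrt N' := hkj.trans hjs
    have : (k:ℝ) ≤ Nat.sqrt N' := by exact_mod_cast this
    linarith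
  have hS2 : S ^ 2 ≤ N' := by rw [hS]; exact_mod_cast Nat.sqrt_le' N'
  have hS3 : (N':ℝ) ≤ (S + 1) ^ 2 := by
    rw [hS]; exact_mod_cast (Nat.lt_succ_sqrt' N').le
  have hcN : c ^ 2 * N ≤ (k:ℝ) ^ 2 := by
    have h : (c * Real.sqrt N) ^ 2 ≤ (k:ℝ) ^ 2 := by gcongr
    rw [mul_pow, Real.sq_sqrt hNpos.le] at h
    exact h
  have hS4 : S ≤ (3 / κ + 1 / c) * k := by
    have h1 : S ^ 2 ≤ ((3 / κ + 1 / c) * k) ^ 2 := by
      have e1 : (N':ℝ) ≤ (j:ℝ) ^ 2 + N := by rw [hN'eq]; exact_mod_cast hm2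
      have e2 : (j:ℝ) ≤ 3 / κ * k := by
        refine hj3.trans ?_
        have : x0 * N ≤ y / κ * N := by gcongr
        have e : y / κ * N = k / κ := by rw [div_mul_eq_mul_div, hyN]
        rw [e] at this
        calc 3 * (x0 * N) ≤ 3 * (k / κ) := by gcongr
          _ = _ := by ring
      have e3 : (j:ℝ) ^ 2 ≤ (3 / κ * k) ^ 2 := by gcongr
      have e4 : (N:ℝ) ≤ (1 / c * k) ^ 2 := by
        rw [mul_pow, div_pow, one_pow, one_div, ← div_eq_inv_mul, le_div_iff₀ (by positivity)]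
        linarith
      have e5 : ((3 / κ + 1 / c) * k) ^ 2 = (3 / κ * k) ^ 2 + (1 / c * k) ^ 2 +
          2 * ((3 / κ * k) * (1 / c * k)) := by ring
      have e6 : 0 ≤ 2 * ((3 / κ * k) * (1 / c * k)) := by positivity
      rw [e5]; linarith
    exact (pow_le_pow_iff_left₀ (by linarith) (by positivity) two_ne_zero).mp h1
  have hs' : (m:ℝ) * (C * N / k) ≤ C' * Nat.sqrt N' := by
    rw [← hS]
    have e1 : (m:ℝ) * (C * N / k) = C * N' / k := by rw [hN'r]; ring
    rw [e1, div_le_iff₀ hkpos]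
    have e2 : (N':ℝ) ≤ 4 * (S * S) := by nlinarith
    calc C * N' ≤ C * (4 * (S * S)) := by gcongr
      _ ≤ C * (4 * (S * ((3 / κ + 1 / c) * k))) := by gcongr
      _ = C' * S * k := by rw [hC']; ring
  -- the families
  classical
  obtain ⟨X, hX⟩ : ∃ X, X = overSet G k (C * N / k) η := ⟨_, rfl⟩
  obtain ⟨Y, hY⟩ : ∃ Y : Finset (Finset (G × ZMod m)), Y = univ.filter
    (fun A' => A'.card = j ∧ k ≤ (A'.image Prod.fst).card) := ⟨_, rfl⟩
  obtain ⟨Z, hZ⟩ : ∃ Z : Finset (Finset (G × ZMod m)), Z = Y.filter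
    (fun A' => ∃ A ∈ X, A ⊆ A'.image Prod.fst) := ⟨_, rfl⟩
  have hYm : ∀ A', A' ∈ Y ↔ A'.card = j ∧ k ≤ (A'.image Prod.fst).card := by
    intro A'; rw [hY]; simp
  have hZm : ∀ A', A' ∈ Z ↔ A' ∈ Y ∧ ∃ A ∈ X, A ⊆ A'.image Prod.fst := by
    intro A'; rw [hZ, mem_filter]
  have hXm : ∀ A ∈ X, A.card = k := by
    intro A hA
    rw [hX] at hA
    exact ((mem_overSet _ _ _ _).mp hA).1
  have h1 := avg_perm k j X hXm Y Z hYm hZm
  have h2 := many_proj k j hkj (by rw [hcardH]; exact hmpos) (by rw [← hN]; exact hNpos') Y hYm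
  rw [← hN] at h1
  rw [← hN', ← hN] at h2
  -- `Z` consists of bad sets
  have h3 : Z ⊆ badSet (G × ZMod m) j (C' * Nat.sqrt N') (η / 2) := by
    intro A' hA'
    obtain ⟨hAY, A, hAX, hAs⟩ := (hZm A').mp hA'
    rw [hX] at hAX
    obtain ⟨hAk, T, hT, hTc⟩ := (mem_overSet _ _ _ _).mp hAX
    rw [← hN] at hTc
    rw [mem_badSet, ← hN']
    refine ⟨((hYm A').mp hAY).1, T ×ˢ (univ : Finset (ZMod m)), ?_, ?_⟩
    · rw [Finset.card_product, Finset.card_univ, hcardH]
      push_cast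
      calc (T.card : ℝ) * m = m * T.card := by ring
        _ ≤ m * (C * N / k) := by gcongr
        _ ≤ _ := hs'
    · have e1 := lift_card A T A' hAs
      rw [hcardH] at e1
      have e1' : ((A + T).card : ℝ) * m ≤ ((A' + T ×ˢ (univ : Finset (ZMod m))).card : ℝ) := by
        exact_mod_cast e1
      refine le_trans ?_ e1'
      rw [Finset.card_product, Finset.card_univ, hcardH, hN'r]
      push_cast
      have e2 : (T.card * m : ℝ) * j / (N * m) = T.card * j / N := by field_simp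
      rw [e2]
      have e3 : (1 - (1 - y) ^ T.card + η) * N ≤ ((A + T).card : ℝ) := by rw [hy]; exact hTc
      have e4 : (1 - y) ^ T.card - η / 2 ≤ Real.exp (-((T.card : ℝ) * j / N)) := by
        have f1 : (T.card : ℝ) * x0 ≤ C / κ := by
          calc (T.card : ℝ) * x0 ≤ (C * N / k) * (y / κ) := by gcongr
            _ = C / κ := by rw [hy]; field_simp
        have f2 : (T.card : ℝ) * j / N ≤ T.card * x0 + 2 * θ * (T.card * x0) := by
          rw [div_le_iff₀ hNpos]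
          calc (T.card : ℝ) * j ≤ T.card * ((1 + 2 * θ) * (x0 * N)) := by gcongr
            _ = _ := by ring
        have f0 : θ * (4 * C) ≤ η * κ := by
          have : θ * (4 * (C + 1)) = θ * (4 * C) + 4 * θ := by ring
          linarith
        have f3 : 2 * θ * (T.card * x0) ≤ η / 2 := by
          calc 2 * θ * (T.card * x0) ≤ 2 * θ * (C / κ) := by gcongr
            _ = (θ * (4 * C)) / κ / 2 := by ring
            _ ≤ (η * κ) / κ / 2 := by
                apply div_le_div_of_nonneg_right _ (by norm_num)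
                exact div_le_div_of_nonneg_right f0 hκ.le
            _ = η / 2 := by field_simp
        have f4 := exp_sub_ge ((T.card : ℝ) * x0) (2 * θ * (T.card * x0)) (by positivity)
          (by positivity)
        have f5 : Real.exp (-((T.card : ℝ) * x0)) = (1 - y) ^ T.card := by
          rw [← hx3, ← Real.exp_nat_mul]; congr 1; ring
        rw [f5] at f4
        have f6 : Real.exp (-((T.card : ℝ) * x0) - 2 * θ * (T.card * x0)) ≤
            Real.exp (-((T.card : ℝ) * j / N)) := by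
          apply Real.exp_le_exp.mpr
          linarith
        linarith
      calc (1 - Real.exp (-((T.card : ℝ) * j / N)) + η / 2) * (N * m) ≤
          ((1 - (1 - y) ^ T.card + η) * N) * m := by
            rw [← mul_assoc]
            apply mul_le_mul_of_nonneg_right _ hmr.le
            apply mul_le_mul_of_nonneg_right _ hNpos.le
            linarith
        _ ≤ ((A + T).card : ℝ) * m := by gcongr
  have h4 : (Z.card : ℝ) ≤ ε * ρ * (N'.choose j : ℝ) :=
    le_trans (by exact_mod_cast Finset.card_le_card h3) hbad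
  -- `Y` is large
  have h5 : ρ * (N'.choose j : ℝ) ≤ (Y.card : ℝ) := by
    have hchn : (0:ℝ) ≤ (N'.choose j : ℝ) := by positivity
    have g1 : (N:ℝ) * Real.exp (-((j:ℝ) / N)) ≤ ((N:ℝ) - k) * Real.exp (-(θ * x0)) := by
      have e1 : Real.exp (-((j:ℝ) / N)) ≤ Real.exp (-x0) * Real.exp (-(θ * x0)) := by
        rw [← Real.exp_add]
        apply Real.exp_le_exp.mpr
        have : (1 + θ) * x0 ≤ (j:ℝ) / N := by rw [le_div_iff₀ hNpos]; exact hj1
        linarith
      calc (N:ℝ) * Real.exp (-((j:ℝ) / N)) ≤ N * (Real.exp (-x0) * Real.exp (-(θ * x0))) := by gcongr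
        _ = (N - k) * Real.exp (-(θ * x0)) := by rw [hx3, ← hyN]; ring
    have g2 : θ * x0 * κ ≤ 1 - Real.exp (-(θ * x0)) := by
      have e1 := Real.add_one_le_exp (θ * x0)
      have e2 : Real.exp (-(θ * x0)) ≤ (1 + θ * x0)⁻¹ := by
        rw [Real.exp_neg]
        apply inv_anti₀ (by positivity)
        linarith
      have e3 : (1 + θ * x0)⁻¹ = 1 - θ * x0 / (1 + θ * x0) := by field_simp; ring
      have e4 : 1 + θ * x0 ≤ 1 / κ := by
        have : θ * x0 ≤ 1 * x0 := by gcongr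
        linarith
      have e5 : θ * x0 * κ ≤ θ * x0 / (1 + θ * x0) := by
        rw [le_div_iff₀ (by positivity)]
        have : κ * (1 + θ * x0) ≤ 1 := by
          rw [le_div_iff₀ hκ] at e4; linarith
        have hp : 0 ≤ θ * x0 := by positivity
        nlinarith
      linarith
    have g3 : κ * N ≤ (N:ℝ) - k := by linarith
    have g4 : (κ ^ 2 * θ) * (x0 * N) ≤ ((N:ℝ) - k) - N * Real.exp (-((j:ℝ) / N)) := by
      have e1 : (κ * N) * (θ * x0 * κ) ≤ ((N:ℝ) - k) * (1 - Real.exp (-(θ * x0))) := by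
        apply mul_le_mul g3 g2 (by positivity)
        exact le_trans (by positivity) g3
      have e2 : (κ ^ 2 * θ) * (x0 * N) = (κ * N) * (θ * x0 * κ) := by ring
      rw [e2]; linarith
    have g5 : (N'.choose j : ℝ) * ((κ ^ 2 * θ) * (x0 * N)) ≤ (3 * (x0 * N)) * Y.card := by
      calc (N'.choose j : ℝ) * ((κ ^ 2 * θ) * (x0 * N)) ≤ (N'.choose j : ℝ) *
          (((N:ℝ) - k) - N * Real.exp (-((j:ℝ) / N))) := by gcongr
        _ ≤ ((j:ℝ) - k) * Y.card := h2
        _ ≤ (3 * (x0 * N)) * Y.card := by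
            gcongr
            linarith
    have hxN : 0 < x0 * N := by positivity
    have g6 : (x0 * N) * (κ ^ 2 * θ * (N'.choose j : ℝ)) ≤ (x0 * N) * (3 * Y.card) := by
      linarith
    have g7 := le_of_mul_le_mul_left g6 hxN
    rw [hρ]
    linarith
  -- conclusion
  have hjN' : j ≤ N' := hjs.trans (Nat.sqrt_le_self N')
  have hch : (0:ℝ) < (N'.choose j : ℝ) := by exact_mod_cast Nat.choose_pos hjN'
  have h6 : (X.card : ℝ) * (ρ * (N'.choose j : ℝ)) ≤
      (ε * (N.choose k : ℝ)) * (ρ * (N'.choose j : ℝ)) := by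
    have h1' : (X.card : ℝ) * Y.card ≤ (N.choose k : ℝ) * Z.card := by exact_mod_cast h1
    calc (X.card : ℝ) * (ρ * (N'.choose j : ℝ)) ≤ X.card * Y.card := by gcongr
      _ ≤ (N.choose k : ℝ) * Z.card := h1'
      _ ≤ (N.choose k : ℝ) * (ε * ρ * (N'.choose j : ℝ)) := by gcongr
      _ = _ := by ring
  have h7 := le_of_mul_le_mul_right h6 (by positivity)
  rw [← hX]
  exact h7

end Pool.Agent.Y940.Cov
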