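import Mathlib
import Pool.Agent.Y940.Cov.Mid

set_option autoImplicit false
set_option linter.unusedVariables false

open Finset Filter
open scoped Pointwise

namespace Pool.Agent.Y940.Cov

/-- The largest number of elements in a union of at most `t` translates of `A`. -/
noncomputable def maxCover {G : Type} [AddCommGroup G] [Fintype G] [DecidableEq G]
    (A : Finset G) (t : ℕ) : ℕ :=
  ((univ : Finset (Finset G)).filter (fun T => T.card ≤ t)).sup (fun T => (A + T).card)

theorem le_maxCover {G : Type} [AddCommGroup G] [Fintype G] [DecidableEq G]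
    (A : Finset G) (t : ℕ) (T : Finset G) (hT : T.card ≤ t) : (A + T).card ≤ maxCover A t := by
  unfold maxCover
  exact Finset.le_sup (f := fun T => (A + T).card) (Finset.mem_filter.mpr ⟨Finset.mem_univ _, hT⟩)

theorem exists_maxCover {G : Type} [AddCommGroup G] [Fintype G] [DecidableEq G]
    (A : Finset G) (t : ℕ) : ∃ T : Finset G, T.card ≤ t ∧ (A + T).card = maxCover A t := by
  have hne : ((univ : Finset (Finset G)).filter (fun T : Finset G => T.card ≤ t)).Nonempty :=
    ⟨∅, Finset.mem_filter.mpr ⟨Finset.mem_univ _, by simp⟩⟩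
  obtain ⟨T, hT, h⟩ := Finset.exists_mem_eq_sup _ hne (fun T : Finset G => (A + T).card)
  exact ⟨T, (Finset.mem_filter.mp hT).2, h.symm⟩

/-- A deviation of `η` gives a set of at most `t` translates covering too much. -/
theorem over_of_dev {G : Type} [AddCommGroup G] [Fintype G] [DecidableEq G]
    (A : Finset G) (t : ℕ) (η : ℝ) (hη : 0 < η)
    (h : η ≤ |(maxCover A t : ℝ) / Fintype.card G -
      (1 - (1 - (A.card : ℝ) / Fintype.card G) ^ t)|) :
    ∃ T : Finset G, T.card ≤ t ∧
      (1 - (1 - (A.card : ℝ) / Fintype.card G) ^ T.card + η) * Fintype.card G ≤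
        ((A + T).card : ℝ) := by
  have hNpos : (0:ℝ) < Fintype.card G := by exact_mod_cast Fintype.card_pos
  set N := Fintype.card G with hN
  obtain ⟨T0, hT0, hT0c⟩ := Pool.Agent.W252.Cover.exists_cover A t
  rw [← hN] at hT0c
  have h1 : ((A + T0).card : ℝ) ≤ maxCover A t := by exact_mod_cast le_maxCover A t T0 hT0
  have h2 : (1 - (1 - (A.card : ℝ) / N) ^ t) ≤ (maxCover A t : ℝ) / N := by
    rw [le_div_iff₀ hNpos]
    nlinarith
  rw [abs_of_nonneg (by linarith)] at h
  obtain ⟨T, hT, hTc⟩ := exists_maxCover A t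
  refine ⟨T, hT, ?_⟩
  rw [hTc]
  have h3 : (1 - (1 - (A.card : ℝ) / N) ^ t) + η ≤ (maxCover A t : ℝ) / N := by linarith
  rw [le_div_iff₀ hNpos] at h3
  refine le_trans ?_ h3
  apply mul_le_mul_of_nonneg_right _ hNpos.le
  have hA : (A.card : ℝ) ≤ N := by
    rw [hN]; exact_mod_cast Finset.card_le_univ A
  have h4 : 0 ≤ 1 - (A.card : ℝ) / N := by
    rw [sub_nonneg, div_le_one hNpos]; exact hA
  have h5 : 1 - (A.card : ℝ) / N ≤ 1 := by
    have : 0 ≤ (A.card : ℝ) / N := by positivity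
    linarith
  have h6 := pow_le_pow_of_le_one h4 h5 hT
  linarith

/-- The sharp covering law for all finite abelian groups and all set sizes `k ≥ c √N`. -/
theorem law (C c η ε : ℝ) (hc : 0 < c) (hη : 0 < η) (hε : 0 < ε) :
    ∃ N₀ : ℕ, ∀ (G : Type) [AddCommGroup G] [Fintype G] [DecidableEq G],
      N₀ ≤ Fintype.card G → ∀ k : ℕ, c * Real.sqrt (Fintype.card G) ≤ k →
        k ≤ Fintype.card G → ∀ B : Finset (Finset G),
        (∀ A ∈ B, A.card = k ∧ ∃ t : ℕ, (t:ℝ) * k ≤ C * Fintype.card G ∧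
          η ≤ |(maxCover A t : ℝ) / Fintype.card G -
            (1 - (1 - (k:ℝ) / Fintype.card G) ^ t)|) →
        (B.card : ℝ) ≤ ε * ((Fintype.card G).choose k : ℝ) := by
  obtain ⟨κ, hκ⟩ : ∃ κ : ℝ, κ = min η 1 / 2 := ⟨_, rfl⟩
  have hκ0 : 0 < κ := by
    rw [hκ]; have : 0 < min η 1 := lt_min hη one_pos
    positivity
  have hκη : κ < η := by
    rw [hκ]; have := min_le_left η 1
    linarith
  have hκ1 : κ < 1 := by
    rw [hκ]; have := min_le_right η 1
    linarith
  obtain ⟨N₀, hN₀⟩ := mid (max C 0) c η ε κ (le_max_right _ _) hc hη hε hκ0 hκ1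
  refine ⟨max N₀ 1, ?_⟩
  intro G _ _ _ hNG k hk1 hk2 B hB
  have h0 : N₀ ≤ Fintype.card G := (le_max_left _ _).trans hNG
  have h1N : 1 ≤ Fintype.card G := (le_max_right _ _).trans hNG
  have h2 := hN₀ G h0 k hk1
  obtain ⟨N, hN⟩ : ∃ N, N = Fintype.card G := ⟨_, rfl⟩
  have hNr : (1:ℝ) ≤ N := by rw [hN]; exact_mod_cast h1N
  have hNpos : (0:ℝ) < N := by linarith
  have hkpos : (0:ℝ) < k := by
    have : 0 < c * Real.sqrt N := by positivity
    rw [hN] at this
    linarith
  have hkN : (k:ℝ) ≤ N := by rw [hN]; exact_mod_cast hk2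
  -- every member of `B` is in `overSet`
  have h3 : ∀ A ∈ B, A.card = k ∧ ∃ T : Finset G, (T.card : ℝ) ≤ max C 0 * Fintype.card G / k ∧
      (1 - (1 - (k:ℝ) / Fintype.card G) ^ T.card + η) * Fintype.card G ≤
        ((A + T).card : ℝ) := by
    intro A hA
    obtain ⟨hAk, t, ht, hdev⟩ := hB A hA
    refine ⟨hAk, ?_⟩
    obtain ⟨T, hT, hTc⟩ := over_of_dev A t η hη (by rw [hAk]; exact hdev)
    rw [hAk] at hTc
    refine ⟨T, ?_, hTc⟩
    rw [le_div_iff₀ hkpos]
    have e1 : (T.card : ℝ) ≤ t := by exact_mod_cast hT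
    calc (T.card : ℝ) * k ≤ t * k := by gcongr
      _ ≤ C * Fintype.card G := ht
      _ ≤ _ := by gcongr; exact le_max_left _ _
  by_cases hcase : (k:ℝ) ≤ (1 - κ) * Fintype.card G
  · refine le_trans ?_ (h2 hcase)
    have : B ⊆ overSet G k (max C 0 * Fintype.card G / k) η := by
      intro A hA
      rw [mem_overSet]
      exact h3 A hA
    exact_mod_cast Finset.card_le_card this
  · have hBe : B = ∅ := by
      rw [Finset.eq_empty_iff_forall_notMem]
      intro A hA
      obtain ⟨hAk, T, hT, hTc⟩ := h3 A hA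
      rw [← hN] at hTc hcase
      push Not at hcase
      have h4 : 1 - (k:ℝ) / N < κ := by
        have : 1 - κ < (k:ℝ) / N := by rw [lt_div_iff₀ hNpos]; exact hcase
        linarith
      have h5 : 0 ≤ 1 - (k:ℝ) / N := by
        rw [sub_nonneg, div_le_one hNpos]; exact hkN
      rcases T.eq_empty_or_nonempty with hTe | hTn
      · rw [hTe] at hTc
        simp at hTc
        have : 0 < η * N := by positivity
        linarith
      · have h6 : (1 - (k:ℝ) / N) ^ T.card ≤ 1 - (k:ℝ) / N := by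
          apply pow_le_of_le_one h5 (by linarith)
          exact (Finset.card_pos.mpr hTn).ne'
        have h7 : ((A + T).card : ℝ) ≤ N := by
          rw [hN]; exact_mod_cast Finset.card_le_univ _
        have h8 : 1 * (N:ℝ) < (1 - (1 - (k:ℝ) / N) ^ T.card + η) * N := by
          apply mul_lt_mul_of_pos_right _ hNpos
          linarith
        linarith
    rw [hBe]
    simp only [Finset.card_empty, Nat.cast_zero]
    positivity

/-- No covering by `C N / k` translates: all finite abelian groups, `c √N ≤ k ≤ (1 - δ) N`. -/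
theorem noCover (C c δ ε : ℝ) (hc : 0 < c) (hδ : 0 < δ) (hδ1 : δ < 1) (hε : 0 < ε) :
    ∃ N₀ : ℕ, ∀ (G : Type) [AddCommGroup G] [Fintype G] [DecidableEq G],
      N₀ ≤ Fintype.card G → ∀ k : ℕ, c * Real.sqrt (Fintype.card G) ≤ k →
        (k:ℝ) ≤ (1 - δ) * Fintype.card G → ∀ B : Finset (Finset G),
        (∀ A ∈ B, A.card = k ∧ ∃ T : Finset G, (T.card : ℝ) * k ≤ C * Fintype.card G ∧
          A + T = univ) →
        (B.card : ℝ) ≤ ε * ((Fintype.card G).choose k : ℝ) := by
  obtain ⟨N₀, hN₀⟩ := law (max C 0) c (Real.exp (-(max C 0 / δ))) ε hc (Real.exp_pos _) hε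
  refine ⟨max N₀ 1, ?_⟩
  intro G _ _ _ hNG k hk1 hk2 B hB
  have h0 : N₀ ≤ Fintype.card G := (le_max_left _ _).trans hNG
  have h1N : 1 ≤ Fintype.card G := (le_max_right _ _).trans hNG
  obtain ⟨N, hN⟩ : ∃ N, N = Fintype.card G := ⟨_, rfl⟩
  have hNr : (1:ℝ) ≤ N := by rw [hN]; exact_mod_cast h1N
  have hNpos : (0:ℝ) < N := by linarith
  rw [← hN] at hk1 hk2
  have hkpos : (0:ℝ) < k := by
    have : 0 < c * Real.sqrt N := by positivity
    linarith
  have hkN : k ≤ N := by
    have : (k:ℝ) ≤ N := by nlinarith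
    exact_mod_cast this
  refine hN₀ G h0 k (by rw [← hN]; exact hk1) (by rw [← hN]; exact hkN) B ?_
  intro A hA
  obtain ⟨hAk, T, hT, hcov⟩ := hB A hA
  rw [← hN] at hT ⊢
  refine ⟨hAk, T.card, hT.trans (by gcongr; exact le_max_left _ _), ?_⟩
  have h2 : maxCover A T.card = N := by
    apply le_antisymm
    · obtain ⟨T', -, hT'⟩ := exists_maxCover A T.card
      rw [← hT', hN]
      exact Finset.card_le_univ _
    · have := le_maxCover A T.card T le_rfl
      rw [hcov, Finset.card_univ, ← hN] at this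
      exact this
  rw [h2, div_self hNpos.ne']
  obtain ⟨y, hy⟩ : ∃ y : ℝ, y = (k:ℝ) / N := ⟨_, rfl⟩
  rw [← hy]
  have hy0 : 0 < y := by rw [hy]; positivity
  have hy1 : y ≤ 1 - δ := by rw [hy, div_le_iff₀ hNpos]; exact hk2
  have h1y : 0 < 1 - y := by linarith
  have e : (1:ℝ) - (1 - (1 - y) ^ T.card) = (1 - y) ^ T.card := by ring
  rw [e, abs_of_nonneg (by positivity)]
  have hlog : -(y / δ) ≤ Real.log (1 - y) := by
    have h := Real.one_sub_inv_le_log_of_pos h1y
    have h3 : (1 - y)⁻¹ - 1 ≤ y / δ := by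
      have e : (1 - y)⁻¹ - 1 = y / (1 - y) := by field_simp; ring
      rw [e]
      apply div_le_div_of_nonneg_left hy0.le hδ
      linarith
    linarith
  have h4 : (1 - y) ^ T.card = Real.exp (T.card * Real.log (1 - y)) := by
    rw [Real.exp_nat_mul, Real.exp_log h1y]
  rw [h4]
  apply Real.exp_le_exp.mpr
  have h5 : (T.card : ℝ) * y ≤ max C 0 := by
    rw [hy, mul_div_assoc', div_le_iff₀ hNpos]
    exact hT.trans (by gcongr; exact le_max_left _ _)
  calc -(max C 0 / δ) ≤ -(T.card * y / δ) := by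
        apply neg_le_neg
        gcongr
    _ = T.card * (-(y / δ)) := by ring
    _ ≤ T.card * Real.log (1 - y) := by gcongr

end Pool.Agent.Y940.Cov
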